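import Pool.Agent.Helper41.GM.KCONT

/-! # Module FC: the Fourier coefficients of the periodised kernel do not vanish -/

open scoped ENNReal UpperHalfPlane MatrixGroups Topology
open UpperHalfPlane Real Filter MeasureTheory

namespace Pool.Agent.Helper12.GM

theorem fc_kap (u : ℝ) : kap u = Real.sigmoid u * (1 - Real.sigmoid u) := by
  rw [Real.sigmoid_def, kap, Real.exp_neg]
  have h := Real.exp_pos u
  have h1 : Real.exp u ≠ 0 := h.ne'
  have h2 : 1 + Real.exp u ≠ 0 := by positivity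
  have h3 : Real.exp u + 1 ≠ 0 := by positivity
  field_simp
  ring

theorem fc_log (u : ℝ) : Real.log (Real.sigmoid u) = Real.log (1 - Real.sigmoid u) + u := by
  have h1 : Real.sigmoid u = (1 - Real.sigmoid u) * Real.exp u := by
    have h2 := Real.sigmoid_mul_rexp_neg u
    rw [Real.sigmoid_neg] at h2
    rw [← h2, mul_assoc, ← Real.exp_add]
    simp
  have h3 : 0 < 1 - Real.sigmoid u := by have := Real.sigmoid_lt_one u; linarith
  conv_lhs => rw [h1]
  rw [Real.log_mul h3.ne' (Real.exp_pos u).ne', Real.log_exp]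

/-- the beta integrand in the variable `u` -/
theorem fc_pow (s : ℂ) (u : ℝ) :
    ((Real.sigmoid u : ℝ) : ℂ) ^ (-s) * (1 - ((Real.sigmoid u : ℝ) : ℂ)) ^ s =
      Complex.exp (-s * u) := by
  have h1 := Real.sigmoid_pos u
  have h3 : 0 < 1 - Real.sigmoid u := by have := Real.sigmoid_lt_one u; linarith
  have h4 : (1 : ℂ) - ((Real.sigmoid u : ℝ) : ℂ) = ((1 - Real.sigmoid u : ℝ) : ℂ) := by push_cast; rfl
  rw [h4, Complex.cpow_def_of_ne_zero (by exact_mod_cast h1.ne'),
    Complex.cpow_def_of_ne_zero (by exact_mod_cast h3.ne'), ← Complex.exp_add,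
    ← Complex.ofReal_log h1.le, ← Complex.ofReal_log h3.le, fc_log u]
  congr 1
  push_cast
  ring

theorem fc_range {ℓ : ℝ} (hℓ : 0 < ℓ) :
    (fun x : ℝ => Real.sigmoid (ℓ * x)) '' Set.univ = Set.Ioo 0 1 := by
  rw [Set.image_univ, ← Real.range_sigmoid]
  ext y
  constructor
  · rintro ⟨x, rfl⟩
    exact ⟨ℓ * x, rfl⟩
  · rintro ⟨x, rfl⟩
    refine ⟨x / ℓ, ?_⟩
    change Real.sigmoid (ℓ * (x / ℓ)) = _
    rw [mul_div_cancel₀ _ hℓ.ne']

theorem fc_deriv {ℓ : ℝ} (x : ℝ) :
    HasDerivWithinAt (fun x : ℝ => Real.sigmoid (ℓ * x)) (ℓ * kap (ℓ * x)) Set.univ x := by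
  have h1 : HasDerivAt (fun x : ℝ => Real.sigmoid (ℓ * x))
      (Real.sigmoid (ℓ * x) * (1 - Real.sigmoid (ℓ * x)) * ℓ) x := by
    have h2 : HasDerivAt (fun x : ℝ => ℓ * x) ℓ x := by
      simpa using (hasDerivAt_id x).const_mul ℓ
    exact (Real.hasDerivAt_sigmoid (ℓ * x)).comp x h2
  rw [fc_kap, mul_comm]
  exact h1.hasDerivWithinAt

theorem fc_inj {ℓ : ℝ} (hℓ : 0 < ℓ) :
    Set.InjOn (fun x : ℝ => Real.sigmoid (ℓ * x)) Set.univ := by
  intro x _ y _ h
  have h1 : ℓ * x = ℓ * y := Real.sigmoid_injective h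
  exact mul_left_cancel₀ hℓ.ne' h1

theorem fc_beta {ℓ : ℝ} (hℓ : 0 < ℓ) (s : ℂ) :
    Complex.betaIntegral (1 - s) (1 + s) =
      ∫ x : ℝ, ((ℓ * kap (ℓ * x) : ℝ) : ℂ) * Complex.exp (-s * ((ℓ * x : ℝ) : ℂ)) := by
  unfold Complex.betaIntegral
  rw [intervalIntegral.integral_of_le zero_le_one, integral_Ioc_eq_integral_Ioo]
  have h1 := integral_image_eq_integral_abs_deriv_smul MeasurableSet.univ
    (fun x _ => fc_deriv (ℓ := ℓ) x) (fc_inj hℓ)
    (fun y : ℝ => (y : ℂ) ^ (1 - s - 1) * (1 - (y : ℂ)) ^ (1 + s - 1))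
  rw [fc_range hℓ] at h1
  rw [h1, setIntegral_univ]
  refine integral_congr_ae (Filter.Eventually.of_forall fun x => ?_)
  have h2 : 0 ≤ ℓ * kap (ℓ * x) := mul_nonneg hℓ.le (kcont_nonneg _)
  have h3 : (1 : ℂ) - s - 1 = -s := by ring
  have h4 : (1 : ℂ) + s - 1 = s := by ring
  simp only [abs_of_nonneg h2, h3, h4, fc_pow, Complex.real_smul]

theorem fc_integrable {ℓ : ℝ} (hℓ : 0 < ℓ) : Integrable fun x : ℝ => ℓ * kap (ℓ * x) := by
  have h1 := integrableOn_image_iff_integrableOn_abs_deriv_smul MeasurableSet.univ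
    (fun x _ => fc_deriv (ℓ := ℓ) x) (fc_inj hℓ) (fun _ : ℝ => (1 : ℝ))
  rw [fc_range hℓ, integrableOn_univ] at h1
  have h2 := h1.mp (integrableOn_const (by simp))
  refine h2.congr (Filter.Eventually.of_forall fun x => ?_)
  have h2 : 0 ≤ ℓ * kap (ℓ * x) := mul_nonneg hℓ.le (kcont_nonneg _)
  simp only [abs_of_nonneg h2, smul_eq_mul, mul_one]

theorem st_FC : ST_FC := by
  intro ℓ hℓ j h0
  have hℓ' : (ℓ : ℂ) ≠ 0 := by exact_mod_cast hℓ.ne'
  let s : ℂ := 2 * π * Complex.I * j / ℓ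
  let G : ℝ → ℂ := fun x => (kap (ℓ * x) : ℂ) * Complex.exp (-2 * π * Complex.I * j * x)
  have hsx : ∀ x : ℝ, -s * ((ℓ * x : ℝ) : ℂ) = -2 * π * Complex.I * j * x := by
    intro x
    simp only [s]
    push_cast
    field_simp
  have hnorm : ∀ x : ℝ, ‖Complex.exp (-2 * π * Complex.I * j * x)‖ = 1 := by
    intro x
    have : -2 * (π : ℂ) * Complex.I * j * x = ((-2 * π * j * x : ℝ) : ℂ) * Complex.I := by
      push_cast; ring
    rw [this, Complex.norm_exp_ofReal_mul_I]
  have hGn : ∀ x, ‖G x‖ = kap (ℓ * x) := by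
    intro x
    simp only [G]
    rw [norm_mul, hnorm, mul_one, Complex.norm_real, Real.norm_of_nonneg (kcont_nonneg _)]
  have hGc : Continuous G := by
    refine Continuous.mul ?_ (by fun_prop)
    exact Complex.continuous_ofReal.comp (kcont_cont.comp (by fun_prop))
  have hGi : Integrable G := by
    refine (((fc_integrable hℓ).const_mul ℓ⁻¹)).mono' hGc.aestronglyMeasurable
      (Filter.Eventually.of_forall fun x => ?_)
    rw [hGn, ← mul_assoc, inv_mul_cancel₀ hℓ.ne', one_mul]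
  -- the integral of `G`
  have hβ : (ℓ : ℂ) * ∫ x, G x = Complex.betaIntegral (1 - s) (1 + s) := by
    rw [fc_beta hℓ s, ← integral_const_mul]
    refine integral_congr_ae (Filter.Eventually.of_forall fun x => ?_)
    simp only [hsx, G]
    push_cast
    ring
  have hsre : s.re = 0 := by
    have : s = ((2 * π * j / ℓ : ℝ) : ℂ) * Complex.I := by
      simp only [s]; push_cast; ring
    rw [this, Complex.re_ofReal_mul]
    simp
  have hβ0 : Complex.betaIntegral (1 - s) (1 + s) ≠ 0 := by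
    intro hb
    have h1 : 0 < (1 - s).re := by rw [Complex.sub_re, Complex.one_re, hsre]; norm_num
    have h2 : 0 < (1 + s).re := by rw [Complex.add_re, Complex.one_re, hsre]; norm_num
    have h3 := Complex.Gamma_mul_Gamma_eq_betaIntegral h1 h2
    rw [hb, mul_zero] at h3
    exact mul_ne_zero (Complex.Gamma_ne_zero_of_re_pos h1) (Complex.Gamma_ne_zero_of_re_pos h2) h3
  have hG0 : ∫ x, G x ≠ 0 := by
    intro h
    rw [h, mul_zero] at hβ
    exact hβ0 hβ.symm
  apply hG0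
  -- unfolding
  have hs1 := hGi.hasSum_intervalIntegral_comp_add_int
  have hF : ∀ (n : ℤ) (x : ℝ), G (x + n) =
      (kap (ℓ * x + n * ℓ) : ℂ) * Complex.exp (-2 * π * Complex.I * j * x) := by
    intro n x
    simp only [G]
    have h1 : ℓ * (x + n) = ℓ * x + n * ℓ := by ring
    have h2 : -2 * (π : ℂ) * Complex.I * j * ((x + n : ℝ) : ℂ) =
        -2 * π * Complex.I * j * x + ((-(j * n) : ℤ) : ℂ) * (2 * π * Complex.I) := by
      push_cast; ring
    rw [h1, h2, Complex.exp_add, Complex.exp_int_mul_two_pi_mul_I, mul_one]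
  have hs2 : HasSum (fun n : ℤ => ∫ x in (0 : ℝ)..1, G (x + n))
      (∫ x in (0 : ℝ)..1, (kper ℓ (ℓ * x) : ℂ) * Complex.exp (-2 * π * Complex.I * j * x)) := by
    refine intervalIntegral.hasSum_integral_of_dominated_convergence
      (fun (n : ℤ) (_ : ℝ) => Real.exp ℓ * Real.exp (-(ℓ * |(n : ℝ)|))) ?_ ?_ ?_ ?_ ?_
    · intro n
      exact (hGc.comp (by fun_prop)).aestronglyMeasurable
    · intro n
      refine Filter.Eventually.of_forall fun x hx => ?_
      rw [Set.uIoc_of_le zero_le_one] at hx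
      rw [hF, norm_mul, hnorm, mul_one, Complex.norm_real, Real.norm_of_nonneg (kcont_nonneg _)]
      refine kcont_bound hℓ ?_ n
      rw [abs_of_nonneg (mul_nonneg hℓ.le hx.1.le)]
      nlinarith [hx.2]
    · exact Filter.Eventually.of_forall fun x _ => (kcont_sum hℓ).mul_left _
    · exact intervalIntegrable_const
    · refine Filter.Eventually.of_forall fun x _ => ?_
      simp only [hF]
      refine HasSum.mul_right _ ?_
      have h1 := (kcont_summable hℓ (ℓ * x)).hasSum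
      exact_mod_cast (Complex.hasSum_ofReal (f := fun n : ℤ => kap (ℓ * x + n * ℓ))
        (x := kper ℓ (ℓ * x))).mpr h1
  have h3 := hs1.unique hs2
  rw [h3]
  have h4 := intervalIntegral.integral_comp_mul_left (a := 0) (b := 1)
    (fun u : ℝ => (kper ℓ u : ℂ) * Complex.exp (-2 * π * Complex.I * j * u / ℓ)) hℓ.ne'
  rw [mul_zero, mul_one, h0, smul_zero] at h4
  rw [← h4]
  refine intervalIntegral.integral_congr fun x _ => ?_
  have h5 : -2 * (π : ℂ) * Complex.I * j * ((ℓ * x : ℝ) : ℂ) / ℓ =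
      -2 * π * Complex.I * j * x := by
    push_cast
    field_simp
  simp only [h5]

end Pool.Agent.Helper12.GM

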