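import Pool.Agent.Helper12.GM.Stmts

/-! # Module KCONT: the periodised kernel is continuous and periodic -/

open scoped ENNReal UpperHalfPlane MatrixGroups Topology
open UpperHalfPlane Real Filter

namespace Pool.Agent.Helper12.GM

theorem kcont_nonneg (u : ℝ) : 0 ≤ kap u := by unfold kap; positivity

theorem kcont_le (u : ℝ) : kap u ≤ Real.exp (-|u|) := by
  unfold kap
  have h0 := Real.exp_pos u
  rw [div_le_iff₀ (by positivity)]
  rcases le_total 0 u with h | h
  · rw [abs_of_nonneg h]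
    have h1 : Real.exp (-u) * Real.exp u = 1 := by rw [← Real.exp_add]; simp
    have h2 : 0 < Real.exp (-u) := Real.exp_pos _
    have h3 : Real.exp (-u) * (1 + Real.exp u) ^ 2 =
        Real.exp (-u) + 2 * (Real.exp (-u) * Real.exp u) +
          (Real.exp (-u) * Real.exp u) * Real.exp u := by ring
    rw [h3, h1]
    linarith
  · rw [abs_of_nonpos h, neg_neg]
    have h1 : Real.exp u * (1 + Real.exp u) ^ 2 =
      Real.exp u + Real.exp u * (2 * Real.exp u + Real.exp u ^ 2) := by ring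
    rw [h1]
    have : 0 ≤ Real.exp u * (2 * Real.exp u + Real.exp u ^ 2) := by positivity
    linarith

theorem kcont_cont : Continuous kap := by
  unfold kap
  refine Continuous.div (by fun_prop) (by fun_prop) fun u => ?_
  have := Real.exp_pos u
  positivity

/-- summability of `e^{-ℓ|k|}` -/
theorem kcont_sum {ℓ : ℝ} (hℓ : 0 < ℓ) : Summable fun k : ℤ => Real.exp (-(ℓ * |(k : ℝ)|)) := by
  have hr0 : 0 ≤ Real.exp (-ℓ) := (Real.exp_pos _).le
  have hr1 : Real.exp (-ℓ) < 1 := by rw [Real.exp_lt_one_iff]; linarith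
  have h1 := summable_geometric_of_lt_one hr0 hr1
  have h2 : ∀ n : ℕ, Real.exp (-(ℓ * |((n : ℤ) : ℝ)|)) = Real.exp (-ℓ) ^ n := by
    intro n
    rw [← Real.exp_nat_mul]
    congr 1
    have : |((n : ℤ) : ℝ)| = n := by simp
    rw [this]; ring
  refine Summable.of_nat_of_neg ?_ ?_
  · exact h1.congr fun n => (h2 n).symm
  · refine h1.congr fun n => ?_
    have : |((-(n : ℤ) : ℤ) : ℝ)| = |((n : ℤ) : ℝ)| := by push_cast; exact abs_neg _
    rw [this, h2]

theorem kcont_bound {ℓ M x : ℝ} (hℓ : 0 < ℓ) (hx : |x| ≤ M) (k : ℤ) :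
    kap (x + k * ℓ) ≤ Real.exp M * Real.exp (-(ℓ * |(k : ℝ)|)) := by
  refine (kcont_le _).trans ?_
  rw [← Real.exp_add]
  apply Real.exp_le_exp.mpr
  have h1 : |(k : ℝ) * ℓ| - |x| ≤ |x + k * ℓ| := by
    have h2 := abs_add_le (x + k * ℓ) (-x)
    have h3 : x + k * ℓ + -x = k * ℓ := by ring
    rw [h3, abs_neg] at h2
    linarith
  rw [abs_mul, abs_of_pos hℓ] at h1
  linarith

theorem kcont_summable {ℓ : ℝ} (hℓ : 0 < ℓ) (x : ℝ) :
    Summable fun k : ℤ => kap (x + k * ℓ) :=
  Summable.of_nonneg_of_le (fun _ => kcont_nonneg _) (fun k => kcont_bound hℓ le_rfl k)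
    ((kcont_sum hℓ).mul_left _)

theorem st_KCONT : ST_KCONT := by
  intro ℓ hℓ
  constructor
  · rw [continuous_iff_continuousAt]
    intro x
    have h1 : ContinuousOn (kper ℓ) (Set.Ioo (-(|x| + 1)) (|x| + 1)) := by
      refine continuousOn_tsum (u := fun k : ℤ => Real.exp (|x| + 1) * Real.exp (-(ℓ * |(k : ℝ)|)))
        (fun k => ?_) ((kcont_sum hℓ).mul_left _) fun k y hy => ?_
      · exact (kcont_cont.comp (by fun_prop)).continuousOn
      · rw [Real.norm_of_nonneg (kcont_nonneg _)]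
        exact kcont_bound hℓ (abs_le.mpr ⟨hy.1.le, hy.2.le⟩) k
    refine h1.continuousAt (Ioo_mem_nhds ?_ ?_)
    · have := neg_abs_le x; linarith
    · have := le_abs_self x; linarith
  · intro u
    unfold kper
    rw [← (Equiv.addRight (1 : ℤ)).tsum_eq fun k : ℤ => kap (u + k * ℓ)]
    refine tsum_congr fun k => ?_
    congr 1
    simp only [Equiv.coe_addRight, Int.cast_add, Int.cast_one]
    ring

end Pool.Agent.Helper12.GM

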