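import Pool.Agent.Helper12.GM.Stmts

/-! # Module KPER: the periodised kernel has infinite rank -/

open scoped ENNReal UpperHalfPlane MatrixGroups Topology
open UpperHalfPlane Real Filter

namespace Pool.Agent.Helper12.GM

theorem kper_int {ℓ : ℝ} (hℓ : 0 < ℓ)
    (hp : ∀ u, kper ℓ (u + ℓ) = kper ℓ u) (k : ℕ) (t : ℝ) :
    ∫ s in (0 : ℝ)..ℓ, (kper ℓ (s - t) : ℂ) * Complex.exp (-2 * π * Complex.I * (k : ℤ) * s / ℓ) =
      Complex.exp (-2 * π * Complex.I * t / ℓ) ^ k *
      ∫ u in (0 : ℝ)..ℓ, (kper ℓ u : ℂ) * Complex.exp (-2 * π * Complex.I * (k : ℤ) * u / ℓ) := by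
  have hℓ' : (ℓ : ℂ) ≠ 0 := by exact_mod_cast hℓ.ne'
  let F : ℝ → ℂ := fun u => (kper ℓ u : ℂ) * Complex.exp (-2 * π * Complex.I * (k : ℤ) * u / ℓ)
  have hF : Function.Periodic F ℓ := by
    intro u
    simp only [F]
    rw [hp u]
    congr 1
    have h1 : -2 * (π : ℂ) * Complex.I * (k : ℤ) * ((u + ℓ : ℝ) : ℂ) / ℓ =
        -2 * π * Complex.I * (k : ℤ) * u / ℓ + ((-(k : ℤ) : ℤ) : ℂ) * (2 * π * Complex.I) := by
      push_cast
      field_simp
      ring
    rw [h1, Complex.exp_add, Complex.exp_int_mul_two_pi_mul_I, mul_one]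
  have h2 : ∀ s : ℝ, (kper ℓ (s - t) : ℂ) * Complex.exp (-2 * π * Complex.I * (k : ℤ) * s / ℓ) =
      Complex.exp (-2 * π * Complex.I * t / ℓ) ^ k * F (s - t) := by
    intro s
    simp only [F]
    have h3 : Complex.exp (-2 * π * Complex.I * (k : ℤ) * s / ℓ) =
        Complex.exp (-2 * π * Complex.I * t / ℓ) ^ k *
          Complex.exp (-2 * π * Complex.I * (k : ℤ) * ((s - t : ℝ) : ℂ) / ℓ) := by
      rw [← Complex.exp_nat_mul, ← Complex.exp_add]
      congr 1
      push_cast
      field_simp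
      ring
    rw [h3]
    ring
  simp only [h2]
  rw [intervalIntegral.integral_const_mul]
  congr 1
  rw [intervalIntegral.integral_comp_sub_right (fun u => F u) t]
  have h4 := hF.intervalIntegral_add_eq (0 - t) 0
  have h5 : (0 : ℝ) - t + ℓ = ℓ - t := by ring
  rw [h5, zero_add] at h4
  exact h4

theorem st_KPER (hKC : ST_KCONT) (hFC : ST_FC) : ST_KPER := by
  intro ℓ hℓ m A σ τ hσ hτ W V h
  obtain ⟨hc, hp⟩ := hKC ℓ hℓ
  have hm : (0 : ℝ) < m + 1 := by positivity
  -- the points `t_i`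
  have hex : ∀ i : Fin (m + 1), ∃ b : A, τ b ∈ Set.Ioo ((i : ℕ) * ℓ / (m + 1))
      (((i : ℕ) + 1) * ℓ / (m + 1)) := by
    intro i
    have hne : (Set.Ioo ((i : ℕ) * ℓ / (m + 1)) (((i : ℕ) + 1) * ℓ / (m + 1))).Nonempty := by
      rw [Set.nonempty_Ioo]
      gcongr
      linarith
    obtain ⟨_, ⟨b, rfl⟩, hb⟩ := hτ.exists_mem_open isOpen_Ioo hne
    exact ⟨b, hb⟩
  choose b hb using hex
  have ht0 : ∀ i, 0 < τ (b i) := fun i => lt_of_le_of_lt (by positivity) (hb i).1
  have htℓ : ∀ i, τ (b i) < ℓ := by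
    intro i
    refine (hb i).2.trans_le ?_
    rw [div_le_iff₀ hm, mul_comm]
    have h1 : ((i : ℕ) : ℝ) + 1 ≤ (m : ℝ) + 1 := by
      have : (i : ℕ) ≤ m := by omega
      exact_mod_cast Nat.succ_le_succ this
    gcongr
  have hinj : ∀ i j, τ (b i) = τ (b j) → i = j := by
    have hlt : ∀ i j : Fin (m + 1), (i : ℕ) < j → τ (b i) < τ (b j) := by
      intro i j hij
      refine (hb i).2.trans_le (le_trans ?_ (hb j).1.le)
      have h1 : ((i : ℕ) : ℝ) + 1 ≤ ((j : ℕ) : ℝ) := by exact_mod_cast hij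
      gcongr
    intro i j hij
    rcases lt_trichotomy (i : ℕ) (j : ℕ) with h1 | h1 | h1
    · exact absurd hij (hlt i j h1).ne
    · exact Fin.ext h1
    · exact absurd hij (hlt j i h1).ne'
  -- the coefficients
  let f : (Fin (m + 1) → ℝ) →ₗ[ℝ] (Fin m → ℝ) :=
    Matrix.mulVecLin (Matrix.of fun l j => V l (b j))
  have hker : LinearMap.ker f ≠ ⊥ := LinearMap.ker_ne_bot_of_finrank_lt (by simp)
  obtain ⟨c, hcmem, hc0⟩ := Submodule.exists_mem_ne_zero_of_ne_bot hker
  have hcV : ∀ l, ∑ j, c j * V l (b j) = 0 := by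
    intro l
    have h1 : f c l = 0 := by
      rw [LinearMap.mem_ker.mp hcmem]; rfl
    have h2 : f c l = ∑ j, V l (b j) * c j := rfl
    rw [h2] at h1
    rw [← h1]
    exact Finset.sum_congr rfl fun j _ => mul_comm _ _
  let G : ℝ → ℝ := fun s => ∑ j, c j * kper ℓ (s - τ (b j))
  have hGc : Continuous G := by
    refine continuous_finsetSum _ fun j _ => ?_
    exact continuous_const.mul (hc.comp (by fun_prop))
  have hG0 : G = fun _ => 0 := by
    refine Continuous.ext_on hσ hGc continuous_const ?_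
    rintro _ ⟨a, rfl⟩
    simp only [G, h]
    simp_rw [Finset.mul_sum]
    rw [Finset.sum_comm]
    refine Finset.sum_eq_zero fun l _ => ?_
    have h1 : ∀ j, c j * (W l a * V l (b j)) = W l a * (c j * V l (b j)) := fun j => by ring
    simp only [h1]
    rw [← Finset.mul_sum, hcV, mul_zero]
  -- Fourier coefficients
  have hsum : ∀ k : ℕ, ∑ j, (c j : ℂ) * Complex.exp (-2 * π * Complex.I * τ (b j) / ℓ) ^ k = 0 := by
    intro k
    have h1 : ∫ s in (0 : ℝ)..ℓ, ∑ j, (c j : ℂ) *
        ((kper ℓ (s - τ (b j)) : ℂ) * Complex.exp (-2 * π * Complex.I * (k : ℤ) * s / ℓ)) = 0 := by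
      have h2 : ∀ s : ℝ, ∑ j, (c j : ℂ) * ((kper ℓ (s - τ (b j)) : ℂ) *
          Complex.exp (-2 * π * Complex.I * (k : ℤ) * s / ℓ)) = 0 := by
        intro s
        have h3 : ((G s : ℝ) : ℂ) = 0 := by rw [hG0]; simp
        simp only [G] at h3
        push_cast at h3
        have h4 : ∀ j, (c j : ℂ) * ((kper ℓ (s - τ (b j)) : ℂ) *
            Complex.exp (-2 * π * Complex.I * (k : ℤ) * s / ℓ)) =
            ((c j : ℂ) * (kper ℓ (s - τ (b j)) : ℂ)) *
            Complex.exp (-2 * π * Complex.I * (k : ℤ) * s / ℓ) := fun j => by ring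
        simp only [h4]
        rw [← Finset.sum_mul, h3, zero_mul]
      simp only [h2]
      simp
    rw [intervalIntegral.integral_finsetSum] at h1
    · simp only [intervalIntegral.integral_const_mul, kper_int hℓ hp k] at h1
      have h5 : ∀ j, (c j : ℂ) * (Complex.exp (-2 * π * Complex.I * τ (b j) / ℓ) ^ k *
          ∫ u in (0 : ℝ)..ℓ, (kper ℓ u : ℂ) *
            Complex.exp (-2 * π * Complex.I * (k : ℤ) * u / ℓ)) =
          ((c j : ℂ) * Complex.exp (-2 * π * Complex.I * τ (b j) / ℓ) ^ k) *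
          ∫ u in (0 : ℝ)..ℓ, (kper ℓ u : ℂ) *
            Complex.exp (-2 * π * Complex.I * (k : ℤ) * u / ℓ) := fun j => by ring
      simp only [h5] at h1
      rw [← Finset.sum_mul] at h1
      exact (mul_eq_zero.mp h1).resolve_right (hFC ℓ hℓ k)
    · intro j _
      refine Continuous.intervalIntegrable ?_ _ _
      refine continuous_const.mul (Continuous.mul ?_ (by fun_prop))
      exact Complex.continuous_ofReal.comp (hc.comp (by fun_prop))
  have hzi : Function.Injective fun j : Fin (m + 1) =>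
      Complex.exp (-2 * π * Complex.I * τ (b j) / ℓ) := by
    intro i j hij
    apply hinj
    obtain ⟨n, hn⟩ := Complex.exp_eq_exp_iff_exists_int.mp hij
    have hℓ' : (ℓ : ℂ) ≠ 0 := by exact_mod_cast hℓ.ne'
    have hpi : (2 * (π : ℂ) * Complex.I) ≠ 0 := Complex.two_pi_I_ne_zero
    have h1 : ((τ (b j) : ℝ) : ℂ) - (τ (b i) : ℝ) = ((n * ℓ : ℝ) : ℂ) := by
      have h2 : (2 * (π : ℂ) * Complex.I) * (((τ (b j) : ℝ) : ℂ) - (τ (b i) : ℝ)) =
          (2 * (π : ℂ) * Complex.I) * ((n * ℓ : ℝ) : ℂ) := by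
        field_simp at hn
        push_cast
        linear_combination (2 * (π : ℂ) * Complex.I) * hn
      exact mul_left_cancel₀ hpi h2
    have h2 : τ (b j) - τ (b i) = n * ℓ := by exact_mod_cast h1
    have h3 := ht0 i
    have h4 := ht0 j
    have h5 := htℓ i
    have h6 := htℓ j
    have h7 : n = 0 := by
      have h8 : (n : ℝ) < 1 := by
        by_contra h9
        push Not at h9
        nlinarith
      have h9 : (-1 : ℝ) < n := by
        by_contra h10
        push Not at h10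
        nlinarith
      have h10 : n < 1 := by exact_mod_cast h8
      have h11 : -1 < n := by exact_mod_cast h9
      omega
    rw [h7] at h2
    simp at h2
    linarith
  have hv := Matrix.eq_zero_of_forall_pow_sum_mul_pow_eq_zero (v := fun j => (c j : ℂ)) hzi
    fun i => hsum i
  apply hc0
  funext j
  have := congrFun hv j
  simpa using this

end Pool.Agent.Helper12.GM

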