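import Pool.Agent.Helper41.GM.KCONT

/-! # Module SUMM: the finite rank identity -/

open scoped ENNReal UpperHalfPlane MatrixGroups Topology
open UpperHalfPlane Real Filter

namespace Pool.Agent.Helper12.GM

/-- the orbits -/
def summ_setoid {ι : Type} (sh : ℤ → ι → ι) (h0 : ∀ x, sh 0 x = x)
    (ha : ∀ k l x, sh (k + l) x = sh k (sh l x)) : Setoid ι where
  r x y := ∃ k, y = sh k x
  iseqv := {
    refl := fun x => ⟨0, (h0 x).symm⟩
    symm := by
      rintro x y ⟨k, rfl⟩
      exact ⟨-k, by rw [← ha, neg_add_cancel, h0]⟩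
    trans := by
      rintro x y z ⟨k, rfl⟩ ⟨l, rfl⟩
      exact ⟨l + k, by rw [ha]⟩ }

theorem summ_kap {ξ e L : ℝ} (hξ : 0 < ξ) (he : 0 < e) (hL : 1 < L) (k : ℤ) :
    kap (Real.log e - Real.log ξ + k * Real.log L) = L ^ k * e * ξ / (ξ + L ^ k * e) ^ 2 := by
  have hL0 : 0 < L := by linarith
  have hLk : 0 < L ^ k := zpow_pos hL0 k
  have h1 : Real.exp (Real.log e - Real.log ξ + k * Real.log L) = L ^ k * e / ξ := by
    rw [Real.exp_add, Real.exp_sub, Real.exp_log he, Real.exp_log hξ]
    have h2 : Real.exp (k * Real.log L) = L ^ k := by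
      rw [← Real.rpow_intCast, Real.rpow_def_of_pos hL0, mul_comm]
    rw [h2]
    ring
  unfold kap
  rw [h1]
  have h3 : ξ + L ^ k * e ≠ 0 := by positivity
  field_simp

theorem st_SUMM : ST_SUMM := by
  classical
  intro ι sh h0 ha hfree hfin A w v ξ η P R Λ q hΛ hq hξ hη hP hR hw hv hsum hid
  have hΛ0 : 0 < Λ := by linarith
  have hlog : 0 < Real.log Λ := Real.log_pos hΛ
  let st : Setoid ι := summ_setoid sh h0 ha
  obtain ⟨T, hT⟩ := hfin
  have hQfin : Finite (Quotient st) := by
    refine Finite.of_surjective (fun t : T => (Quotient.mk st t.1)) fun x => ?_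
    obtain ⟨y, rfl⟩ := Quotient.exists_rep x
    obtain ⟨t, ht, k, hk⟩ := hT y
    exact ⟨⟨t, ht⟩, Quotient.sound ⟨k, hk⟩⟩
  have := Fintype.ofFinite (Quotient st)
  -- the bijection
  let φ : Quotient st × ℤ → ι := fun p => sh p.2 p.1.out
  have hφ : Function.Bijective φ := by
    constructor
    · rintro ⟨x, k⟩ ⟨y, l⟩ h
      have h1 : sh k x.out = sh l y.out := h
      have h2 : x = y := by
        rw [← Quotient.out_eq x, ← Quotient.out_eq y]
        refine Quotient.sound ⟨-l + k, ?_⟩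
        rw [ha, h1, ← ha, neg_add_cancel, h0]
      subst h2
      have h3 : sh (-l + k) x.out = x.out := by
        rw [ha, h1, ← ha, neg_add_cancel, h0]
      have h4 := hfree _ _ h3
      have h5 : k = l := by omega
      rw [h5]
    · intro x
      have h1 : (Quotient.mk st x).out ≈ x := Quotient.exact (Quotient.out_eq _)
      obtain ⟨k, hk⟩ := h1
      exact ⟨(Quotient.mk st x, k), hk.symm⟩
  let φe : Quotient st × ℤ ≃ ι := Equiv.ofBijective φ hφ
  let ζ : ℝ := Λ / q
  have hζ : 0 < ζ := div_pos hΛ0 hq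
  let z : ℤ → ℝ≥0∞ := fun k => ENNReal.ofReal (ζ ^ k)
  have hz : ∀ k l, z (k + l) = z k * z l := by
    intro k l
    simp only [z]
    rw [zpow_add₀ hζ.ne', ENNReal.ofReal_mul (zpow_pos hζ k).le]
  let wE : A → ι → ℝ≥0∞ := fun a x => ENNReal.ofReal (w a x)
  let vE : A → ι → ℝ≥0∞ := fun b x => ENNReal.ofReal (v b x)
  let WE : Quotient st → A → ℝ≥0∞ := fun x a => ∑' i : ℤ, z (-i) * wE a (sh i x.out)
  let VE : Quotient st → A → ℝ≥0∞ := fun x b => ∑' j : ℤ, z j * vE b (sh j x.out)
  let c : A → A → ℝ := fun a b => P a * R b / (-η a * ξ b)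
  have hc : ∀ a b, 0 < c a b := fun a b =>
    div_pos (mul_pos (hP a) (hR b)) (mul_pos (neg_pos.mpr (hη a)) (hξ b))
  -- first evaluation
  have hE1 : ∀ a b, ∑' k : ℤ, z k * ∑' x, wE a (sh (-k) x) * vE b x =
      ENNReal.ofReal (c a b * kper (Real.log Λ) (Real.log (-η a) - Real.log (ξ b))) := by
    intro a b
    have h1 : ∀ k : ℤ, z k * ∑' x, wE a (sh (-k) x) * vE b x =
        ENNReal.ofReal (c a b *
          kap (Real.log (-η a) - Real.log (ξ b) + k * Real.log Λ)) := by
      intro k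
      have h2 : ∑' x, wE a (sh (-k) x) * vE b x =
          ENNReal.ofReal (∑' x, w a (sh (-k) x) * v b x) := by
        rw [ENNReal.ofReal_tsum_of_nonneg (fun x => mul_nonneg (hw _ _) (hv _ _)) (hsum a b k)]
        refine tsum_congr fun x => ?_
        exact (ENNReal.ofReal_mul (hw _ _)).symm
      rw [h2, ← ENNReal.ofReal_mul (zpow_pos hζ k).le]
      congr 1
      have h3 := hid a b k
      have h4 : 0 < ξ b + Λ ^ k * -η a :=
        add_pos (hξ b) (mul_pos (zpow_pos hΛ0 k) (neg_pos.mpr (hη a)))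
      have h5 : ξ b - Λ ^ k * η a = ξ b + Λ ^ k * -η a := by ring
      rw [h5] at h3
      have h6 : ∑' x, w a (sh (-k) x) * v b x = P a * q ^ k * R b / (ξ b + Λ ^ k * -η a) ^ 2 := by
        rw [eq_div_iff (pow_ne_zero 2 h4.ne')]
        exact h3
      rw [h6, summ_kap (hξ b) (neg_pos.mpr (hη a)) hΛ k]
      have h7 : ζ ^ k * q ^ k = Λ ^ k := by
        rw [← mul_zpow, div_mul_cancel₀ _ hq.ne']
      have h8 : ξ b ≠ 0 := (hξ b).ne'
      have h9 : η a ≠ 0 := (hη a).ne
      have h10 : ζ ^ k * (P a * q ^ k * R b / (ξ b + Λ ^ k * -η a) ^ 2) =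
          (ζ ^ k * q ^ k) * (P a * R b) / (ξ b + Λ ^ k * -η a) ^ 2 := by ring
      rw [h10, h7]
      simp only [c]
      have h11 : ξ b + Λ ^ k * -η a ≠ 0 := h4.ne'
      field_simp
    simp only [h1]
    rw [← ENNReal.ofReal_tsum_of_nonneg (fun k => mul_nonneg (hc a b).le (kcont_nonneg _))
      ((kcont_summable hlog _).mul_left _), tsum_mul_left]
    rfl
  -- second evaluation
  have hE2 : ∀ a b, ∑' k : ℤ, z k * ∑' x, wE a (sh (-k) x) * vE b x =
      ∑ x : Quotient st, WE x a * VE x b := by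
    intro a b
    have h1 : ∀ k : ℤ, z k * ∑' x, wE a (sh (-k) x) * vE b x =
        ∑ x : Quotient st, ∑' j : ℤ,
          z k * (wE a (sh (-k + j) x.out) * vE b (sh j x.out)) := by
      intro k
      rw [← ENNReal.tsum_mul_left, ← φe.tsum_eq, ENNReal.tsum_prod', tsum_fintype]
      refine Finset.sum_congr rfl fun x _ => tsum_congr fun j => ?_
      have h2 : φe (x, j) = sh j x.out := rfl
      rw [h2, ← ha]
    simp only [h1]
    rw [← tsum_fintype (L := .unconditional _)]
    simp only [← tsum_fintype (L := .unconditional _)]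
    rw [ENNReal.tsum_comm]
    refine tsum_congr fun x => ?_
    rw [ENNReal.tsum_comm]
    have h3 : ∀ j : ℤ, ∑' k : ℤ, z k * (wE a (sh (-k + j) x.out) * vE b (sh j x.out)) =
        WE x a * (z j * vE b (sh j x.out)) := by
      intro j
      rw [← (Equiv.subLeft j).tsum_eq, ← ENNReal.tsum_mul_right]
      refine tsum_congr fun i => ?_
      simp only [Equiv.subLeft_apply]
      have h4 : -(j - i) + j = i := by ring
      have h5 : j - i = -i + j := by ring
      rw [h4, h5, hz]
      ring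
    simp only [h3]
    rw [ENNReal.tsum_mul_left]
  -- real form
  have hE3 : ∀ a b, c a b * kper (Real.log Λ) (Real.log (-η a) - Real.log (ξ b)) =
      ∑ x : Quotient st, (WE x a).toReal * (VE x b).toReal := by
    intro a b
    have h1 := hE2 a b
    rw [hE1 a b] at h1
    have h2 : 0 ≤ c a b * kper (Real.log Λ) (Real.log (-η a) - Real.log (ξ b)) :=
      mul_nonneg (hc a b).le (tsum_nonneg fun k => kcont_nonneg _)
    have h3 : ∀ x ∈ (Finset.univ : Finset (Quotient st)), WE x a * VE x b ≠ ∞ := by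
      intro x hx h4
      have h5 : ∑ x : Quotient st, WE x a * VE x b = ∞ :=
        ENNReal.sum_eq_top.mpr ⟨x, hx, h4⟩
      rw [← h1] at h5
      exact ENNReal.ofReal_ne_top h5
    have h4 : (ENNReal.ofReal (c a b * kper (Real.log Λ)
        (Real.log (-η a) - Real.log (ξ b)))).toReal =
        (∑ x : Quotient st, WE x a * VE x b).toReal := by rw [h1]
    rw [ENNReal.toReal_ofReal h2, ENNReal.toReal_sum h3] at h4
    rw [h4]
    exact Finset.sum_congr rfl fun x _ => ENNReal.toReal_mul
  -- conclusion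
  let e : Quotient st ≃ Fin (Fintype.card (Quotient st)) := Fintype.equivFin _
  refine ⟨Fintype.card (Quotient st), fun l a => -η a / P a * (WE (e.symm l) a).toReal,
    fun l b => ξ b / R b * (VE (e.symm l) b).toReal, fun a b => ?_⟩
  have h1 := hE3 a b
  have h2 : ∑ l : Fin (Fintype.card (Quotient st)), -η a / P a * (WE (e.symm l) a).toReal *
      (ξ b / R b * (VE (e.symm l) b).toReal) =
      (-η a / P a * (ξ b / R b)) * ∑ x : Quotient st, (WE x a).toReal * (VE x b).toReal := by
    rw [Finset.mul_sum]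
    refine Fintype.sum_equiv e.symm _ _ fun l => ?_
    ring
  rw [h2, ← h1]
  simp only [c]
  have h3 := (hP a).ne'
  have h4 := (hR b).ne'
  have h5 := (hξ b).ne'
  have h6 := (hη a).ne
  field_simp

end Pool.Agent.Helper12.GM

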